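import Pool.Agent.Lib.MP_1905b6_pr.Final

/-!
Problem MP_1905b6_pr, Q1, negative answer.

There are a countable group `G`, a generating measure `μ` on `G` and a constant `c > 0` with
`|∂S| > c log |S|` for every finite nonempty `S ⊆ G`, such that for every `λ > 0` almost surely
`G_μ(λ)` has no infinite component.

The example is `G = ℤ × ⨁_{j ∈ ℕ} ℤ/2` with `μ(±1, 0)` proportional to `1` and `μ(0, e_j)`
proportional to `2^{-(2^{j+1} + j)}`.
-/

open MeasureTheory ProbabilityTheory
open scoped ENNReal NNReal

open Pool.Agent.Lib.MP_1905b6_pr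

/-- **Logarithmic isoperimetry does not imply percolation at large intensity.** -/
theorem Pool.Agent.Results.MP_1905b6_pr.LogIsoNoPercolation.result :
    ∃ (G : Type) (_ : Group G) (_ : Countable G) (μ : GeneratingMeasure G) (c : ℝ), 0 < c ∧
      (∀ S : Finset G, S.Nonempty → ENNReal.ofReal (c * Real.log S.card) < boundary μ S) ∧
      ∀ lam : ℝ≥0, 0 < lam →
        ∀ᵐ ω ∂(percLaw μ lam), ∀ C : (openGraph ω).ConnectedComponent, C.supp.Finite := by
  obtain ⟨c, hc, h⟩ := log_iso
  exact ⟨Γ, inferInstance, inferInstance, gm, c, hc, h, fun lam _ => no_percolation lam⟩
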